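import Pool.Agent.H20.RT.Stmts

/-! Row WRS of board rt: zero wrap, filler wraps, gadget wraps. -/

set_option autoImplicit false

namespace Pool.RT

namespace WRSAux

theorem wrap_congr {K P Q : ℕ} {r r' : ℕ → ℕ} (h : Wrap K P Q r)
    (hr : ∀ d : ℕ, 1 ≤ d → d ≤ 9 → r d = r' d) : Wrap K P Q r' := by
  refine ⟨h.1, h.2.1, ?_⟩
  intro l F hF d h1 h9
  rw [h.2.2 l F hF d h1 h9, hr d h1 h9]

end WRSAux

open WRSAux in
theorem WRS_thm (h1 : WRBStmt) : WRSStmt := by
  refine ⟨?_, ?_, ?_⟩
  · refine wrap_congr (h1 0 0 0 (by norm_num) (by norm_num) (dvd_zero _)) ?_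
    intro d _ _
    have e1 : revk (0 + 1) 0 = 0 := by rfl
    simp [e1, cnt]
  · intro s hs1 hs9
    refine wrap_congr (h1 1 (10 * s) 0 ?_ (by norm_num) (Dvd.intro _ rfl)) ?_
    · norm_num
      omega
    intro d hd1 hd9
    have e1 : revk (1 + 1) (10 * s) = s := by
      interval_cases s <;> rfl
    have e2 : revk (1 + 1) 0 = 0 := by rfl
    have e3 : 10 * s / 10 = s := Nat.mul_div_cancel_left s (by norm_num)
    have e4 : Nat.digits 10 s = [s] := Nat.digits_of_lt 10 s (by omega) (by omega)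
    simp only [e1, e2, zero_add, add_zero, e3, cnt, e4]
    by_cases h : d = s
    · subst h
      simp
    · rw [if_neg h, List.count_eq_zero_of_not_mem]
      simpa using h
  · intro g hg1 hg9
    refine wrap_congr (h1 2 (900 + 10 * g) 1 ?_ (by norm_num) ?_) ?_
    · norm_num
      omega
    · omega
    intro d hd1 hd9
    have e1 : 1 + revk (2 + 1) (900 + 10 * g) = 10 * g + 10 := by
      interval_cases g <;> rfl
    have e2 : (900 + 10 * g + revk (2 + 1) 1) / 10 = 100 + g := by
      interval_cases g <;> rfl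
    simp only [e1, e2, gv]

end Pool.RT
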